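import Pool.Agent.MP_e30343_lc.Q

namespace Pool.Agent.Results.MP_e30343_lc.LimitClosure

open Pool.Agent.MP_e30343_lc

universe u

theorem result (a : ℕ → Ordinal.{0})
    (ha : ∀ n, a n < Ordinal.omega.{0} 1 ∧ QOrder.{u} (a n)) :
    ∃ c : Ordinal.{0}, c < Ordinal.omega.{0} 1 ∧ CCOrder.{u} c ∧
      c ≤ (⨆ n, ((List.range n).map a).sum) + 1 ∧
      ∀ l : Ordinal.{0}, Order.IsSuccLimit l →
        (∀ g < l, ∀ m, ∃ n, m ≤ n ∧ g < a n) → l < c :=
  main a ha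

end Pool.Agent.Results.MP_e30343_lc.LimitClosure
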