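import Pool.Agent.MP_e30343_lc.Mg.SO_ThmDSys
import Pool.Agent.MP_e30343_lc.Mg.SO_No3

open Filter Set Pool.Agent.Lib.Forcing Pool.Agent.MP_e30343_lc.SO

namespace Pool.Agent.Results.MP_e30343_lc.PartialSpectrum

/-- There is a model of ZFC in which some sequential Hausdorff group has sequential order 2 and no
sequential Hausdorff group has sequential order 3. -/
theorem result : ∃ (M : Type 1) (E : M → M → Prop), ZFC E ∧ ∃ w, Om E w ∧
    ∃ a b, Num E 2 a ∧ Num E 3 b ∧ InS E w a ∧ Mid E w b ∧ ¬ InS E w b := by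
  obtain ⟨T, en, par, hR, hT⟩ := exists_real
  obtain ⟨U, hU⟩ : ∃ U : Ult (IAlg T.μ), ¬ InS U.E U.om (U.num 3) := by
    by_contra h
    obtain ⟨G⟩ := not3 fun U => not_not.1 fun h' => h ⟨U, h'⟩
    exact no3 T hT (fun _ => True) measurable_const (Eventually.of_forall fun _ => trivial).frequently
      (by simpa using G)
  exact ⟨U.M, U.E, U.zfc, U.om, U.om_om, U.num 2, U.num 3, num_num U 2, num_num U 3,
    in2 hR.chr U, mid_num U (by omega), hU⟩

end Pool.Agent.Results.MP_e30343_lc.PartialSpectrum
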